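import Mathlib
import Pool.Agent.U773.WN.Auto

/-!
# The numbers written in long windows of the rows are arithmetically generic

Let `x` be a finite nonzero configuration and `w` the number written (in base 6) in a window of
`m ≥ ε n` cells of the row `F^n x`.  Modulo `6^m` the number `w` is not close to any sum
`∑ θ_l v_l` with fixed real algebraic coefficients `θ_l` and integers `v_l` with small `S`-free parts.
In particular the rows share no long word with the expansion of an algebraic number, and `w` has many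
nonzero digits in every base.
-/

set_option autoImplicit false

namespace Pool.Agent.Results.MP_cc0c1a_nt.ArithmeticOfWindows

open Pool.Agent.H429R2.Auto (F)

/-- the number written in base 6 in the cells `i, …, i + m - 1` of the configuration `y` -/
def num (y : ℤ → Fin 6) (i : ℤ) (m : ℕ) : ℕ :=
  ∑ t ∈ Finset.range m, (y (i + t) : ℕ) * 6 ^ (m - 1 - t)

/-- the `S`-free part of the integer `v`: the largest divisor of `|v|` not divisible by a prime of
`S` -/
def free (S : Finset ℕ) (v : ℤ) : ℕ := v.natAbs / ∏ p ∈ S, p ^ padicValNat p v.natAbs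

/-- `Window x ε U n m i`: the cells `i, …, i + m - 1` form a window of length `m ≥ ε n` in the row
`F^n x`; the row has a nonzero cell at `i` or to the left of `i`, and at least `U` of the cells up to
the cell `n - 1` are to the right of the window. -/
def Window (x : ℤ → Fin 6) (ε : ℝ) (U n m : ℕ) (i : ℤ) : Prop :=
  ε * n ≤ m ∧ (∃ j ≤ i, F^[n] x j ≠ 0) ∧ i + m + U ≤ n

/-- Let `x` be a finite nonzero configuration and `ε > 0`.
(1) Let `S` be a finite set of primes, `θ_1, …, θ_r` real algebraic numbers, `C` a real number and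
`δ > 0`.  There is `U` such that for every window (`Window x ε U n m i`), all nonzero integers
`v_1, …, v_r` with `|v_l| ≤ e ^ (C m)` and all integers `M` the number `w` written in the window
satisfies `6 ^ ((1 - δ) m) < (1 + |w - ∑ θ_l v_l - 6 ^ m M|) ∏ free S v_l`.
(2) Let `θ ≥ 0` be an algebraic number and `C` a real number.  There is `U` such that for every
window the word in the window does not occur in the base-6 expansion of `θ` at a place `k ≤ C m`.
(3) Let `b ≥ 2` and `R` be natural numbers.  There is `U` such that for every window the number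
written in the window has more than `R` nonzero digits in base `b`. -/
theorem result (x : ℤ → Fin 6) (hfin : {i | x i ≠ 0}.Finite) (hx : ∃ i, x i ≠ 0)
    (ε : ℝ) (hε : 0 < ε) :
    (∀ S : Finset ℕ, (∀ p ∈ S, p.Prime) → ∀ (r : ℕ) (θ : Fin r → ℝ),
      (∀ l, IsAlgebraic ℚ (θ l)) → ∀ C δ : ℝ, 0 < δ →
      ∃ U : ℕ, ∀ (n m : ℕ) (i : ℤ), Window x ε U n m i →
        ∀ (v : Fin r → ℤ) (M : ℤ), (∀ l, v l ≠ 0 ∧ |(v l : ℝ)| ≤ Real.exp (C * m)) →
        (6 : ℝ) ^ ((1 - δ) * (m : ℝ)) <
          (1 + |(num (F^[n] x) i m : ℝ) - ∑ l, θ l * v l - 6 ^ m * M|) *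
            ∏ l, (free S (v l) : ℝ)) ∧
    (∀ θ : ℝ, 0 ≤ θ → IsAlgebraic ℚ θ → ∀ C : ℝ,
      ∃ U : ℕ, ∀ (n m : ℕ) (i : ℤ), Window x ε U n m i → ∀ k : ℕ, (k : ℝ) ≤ C * m →
        ∃ t < m, (F^[n] x (i + t) : ℕ) ≠ ⌊θ * 6 ^ (k + t)⌋₊ % 6) ∧
    (∀ b : ℕ, 2 ≤ b → ∀ R : ℕ,
      ∃ U : ℕ, ∀ (n m : ℕ) (i : ℤ), Window x ε U n m i →
        R < {j : ℕ | num (F^[n] x) i m / b ^ j % b ≠ 0}.ncard) := by
  refine ⟨?_, ?_, ?_⟩
  · intro S hS r θ hθ C δ hδ
    obtain ⟨U, hU⟩ := Pool.Agent.U773.WN.rows x hfin hx S hS r θ hθ C ε δ hε hδ 0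
    exact ⟨U, fun n m i hw v M hv => (hU n m i hw.1 hw.2.1 hw.2.2).2 v M hv⟩
  · intro θ hθ0 hθ C
    obtain ⟨U, hU⟩ := Pool.Agent.U773.WN.rows_alg x hfin hx θ hθ0 hθ C ε hε
    exact ⟨U, fun n m i hw k hk => hU n m i hw.1 hw.2.1 hw.2.2 k hk⟩
  · intro b hb R
    obtain ⟨U, hU⟩ := Pool.Agent.U773.WN.rows_base x hfin hx b hb R ε hε
    exact ⟨U, fun n m i hw => hU n m i hw.1 hw.2.1 hw.2.2⟩

end Pool.Agent.Results.MP_cc0c1a_nt.ArithmeticOfWindows
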