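import Pool.Agent.U536.CF.F
import Pool.Agent.Results.MP_cc0c1a_nt.AlmostAllMultiples

/-!
# The multiples of a configuration by integers with a large common factor with a value of a multiplicative function

Let `f` be a positive multiplicative function of at most polynomial growth such that `f p ≤ M p` for the large primes `p`,
with different values at different large primes; for example Euler's function or the sum of the divisors. Let `G` have
steps bounded below by a positive constant and growth at most `v^d`, for example `α v^d`. Let `b < 1` and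
`0 ≤ c < 2 b - 1`. For all `m ≤ N` but `N exp (-(log N)^c)`, for EVERY integer `w ≥ exp ((log N)^b)` with `gcd(w, f(m)) ≥ w^ρ`
and EVERY integer `v` with `|v - G w| ≤ w ^ κ`, the orbit of the multiple `v x` under `F` shows every word of `L` letters at
every position `j` with `|j| ≤ v^η`, each at infinitely many times, if `κ ≥ 0` and `d (1 - η) + κ < ρ ≤ 1` (`η > 0` depends only
on `L`). The bound `N ≥ N₀` does not depend on the configuration `x`. The integers `w` include all large divisors of `f(m)` and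
their multiples by small integers; for Euler's function, the orders of the elements of the group of units modulo `m`.

Proof. Write `m = k u` with `u` squarefree and composed of primes larger than `N^(1/J)`, `J = (log N)^a`, and
`k ≤ exp (4 (log N)^a)`; this is possible for all `m ≤ N` but very few. If `v ∣ f(k) f(u)`, then `v = g v'` with `g ∣ f(k)` and
`v' ∣ ∏ f(p)`, and the number of such `u ≤ N / k` is at most `N / (k v')` times `(log N)^O(J)` times the number `τ_J(v')` of the
ordered factorizations of `v'` into `J` factors. The inequality `τ_J^q ≤ τ_K` for `K ≥ J^q` and Hölder's inequality bound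
the sum over the sparse set of the exceptional `v`. The count of the exceptional multiples `v < M` for one configuration is the
theorem `AlmostAllMultiples` of this page in the starting library; the values of multiplicative functions and their divisors
form sets of density zero, which are taken with very large multiplicities, and so the theorem does not follow from that count.
-/

set_option autoImplicit false

namespace Pool.Agent.Results.MP_cc0c1a_nt.CommonFactors

open Finset
open Pool.Agent.H429R2.Auto (Conf IsFin F)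
open Pool.Agent.N733.TG (LM Expanding lm_totient lm_sigma expanding_pow)
open Pool.Agent.U536.CF (Common common_good_nat_unif common_of_dvd common_order)
open Pool.Agent.Results.MP_cc0c1a_nt.AlmostAllMultiples (expansion Shows AllShown)

lemma allShown_mono {L : ℕ} {R R' : ℝ} (h : R ≤ R') {x : Conf} (hx : AllShown L R' x) : AllShown L R x :=
  fun j hj => hx j (hj.trans h)

/-- **The multiples of a configuration by integers with a large common factor with a value of a multiplicative function.** For
every `L` there is `η > 0` such that the following holds. Let `f` be multiplicative and positive, of at most polynomial growth,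
with `f p ≤ M p` at the large primes, and injective there. Let `G` have steps `≥ a > 0` and growth at most `v^d`. Let `b < 1` and
`0 ≤ c < 2 b - 1`, `κ ≥ 0` and `d (1 - η) + κ < ρ ≤ 1`. For all large `N` and all `β > 0`, for all `m ≤ N` but
`N exp (-(log N)^c)`, for EVERY integer `w ≥ exp ((log N)^b)` with `gcd(w, f(m)) ≥ w^ρ` and EVERY integer `v ≥ 1` with
`|v - G w| ≤ w ^ κ`, the orbit under `F` of the expansion of `v β`, the multiple `v x` of the configuration `x` with the
expansion of `β`, shows every word of `L` letters at every position `j` with `|j| ≤ v^η`, each at infinitely many times. Every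
finite configuration `x ≠ 0` is the expansion of some `β > 0`, and its multiples are finite. All divisors `w ≥ exp ((log N)^b)`
of `f(m)` are such integers `w`, and for Euler's function the orders `≥ exp ((log N)^b)` of the units modulo `m`. Euler's
function and the sum of the divisors are examples of `f`, and `α v^d` with `α > 0`, `d ≥ 1` is an example of `G`. -/
theorem result :
    (∀ L : ℕ, ∃ η : ℝ, 0 < η ∧ η < 1 ∧ ∀ f : ℕ → ℕ, LM f → ∀ (G : ℕ → ℝ) (d : ℝ), Expanding G d → ∀ κ ρ b c : ℝ, 0 ≤ κ →
      d * (1 - η) + κ < ρ → ρ ≤ 1 → b < 1 → 0 ≤ c → c < 2 * b - 1 → ∃ N₀ : ℕ, ∀ N : ℕ, N₀ ≤ N → ∀ β : ℝ, 0 < β →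
        ({m : ℕ | 1 ≤ m ∧ m ≤ N ∧ ¬ ∀ w : ℕ, Common f b ρ N m w → ∀ v : ℕ, 1 ≤ v → |(v : ℝ) - G w| ≤ (w : ℝ) ^ κ →
          AllShown L ((v : ℝ) ^ η) (expansion (v * β))}.ncard : ℝ) ≤ N * Real.exp (-(Real.log N ^ c))) ∧
    (∀ x : Conf, IsFin x → x ≠ 0 → ∃ β : ℝ, 0 < β ∧ x = expansion β ∧ ∀ m : ℕ, IsFin (expansion (m * β))) ∧
    (LM Nat.totient ∧ LM (fun m => ∑ d ∈ m.divisors, d)) ∧
    (∀ α d : ℝ, 0 < α → 1 ≤ d → Expanding (fun v => α * (v : ℝ) ^ d) d) ∧
    (∀ (f : ℕ → ℕ) (b ρ : ℝ) (N m w : ℕ), ρ ≤ 1 → Real.exp (Real.log N ^ b) ≤ (w : ℝ) → w ∣ f m → Common f b ρ N m w) ∧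
    ∀ (b ρ : ℝ) (N m : ℕ), ρ ≤ 1 → ∀ x : (ZMod m)ˣ, Real.exp (Real.log N ^ b) ≤ (orderOf x : ℝ) →
      Common Nat.totient b ρ N m (orderOf x) := by
  obtain ⟨h1, -, h3, -⟩ := AlmostAllMultiples.result
  refine ⟨?_, h1, ⟨lm_totient, lm_sigma⟩, fun α d hα hd => expanding_pow hα hd, fun f b ρ N m w hρ hw hd => common_of_dvd hρ hw hd,
    fun b ρ N m hρ x hx => common_order hρ x hx⟩
  intro L
  obtain ⟨δ, C, hδ, hC, h⟩ := h3 L
  obtain ⟨η, hη⟩ : ∃ η, η = min δ (1 / 2) := ⟨_, rfl⟩
  have hη0 : 0 < η := by rw [hη]; exact lt_min hδ (by norm_num)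
  have hηδ : η ≤ δ := by rw [hη]; exact min_le_left _ _
  have hη1 : η < 1 := by
    have : η ≤ 1 / 2 := by rw [hη]; exact min_le_right _ _
    linarith
  refine ⟨η, hη0, hη1, fun f hf G d hG κ ρ b c hκ h2 hρ hb hc hcb => ?_⟩
  obtain ⟨N₀, hN₀⟩ := common_good_nat_unif hf hG (s := 1 - η) (by linarith) hκ h2 hρ hb hc hcb (C * 2 ^ (1 - η))
  refine ⟨N₀, fun N hN β hβ => ?_⟩
  have key := hN₀ (fun v => ¬ AllShown L ((v : ℝ) ^ η) (expansion (v * β))) (fun X hX => ?_) N hN
  · refine le_trans (le_of_eq ?_) key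
    congr 2
    ext m
    simp only [Set.mem_ofPred_eq]
    push Not
    constructor
    · rintro ⟨a1, a2, w, hw, v, a3, a4, a5⟩
      exact ⟨a1, a2, w, hw, v, a3, a4, a5⟩
    · rintro ⟨a1, a2, w, hw, v, a3, a4, a5⟩
      exact ⟨a1, a2, w, hw, v, a3, a4, a5⟩
  · have hX1 : (1 : ℝ) ≤ X := by exact_mod_cast hX
    have h4 := h β hβ (2 * X) (by omega)
    have hM1 : (1 : ℝ) ≤ ((2 * X : ℕ) : ℝ) := by push_cast; linarith
    have hfin : {m : ℕ | m < 2 * X ∧ ¬ AllShown L (((2 * X : ℕ) : ℝ) ^ δ) (expansion (m * β))}.Finite :=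
      (Set.finite_lt_nat (2 * X)).subset fun m hm => hm.1
    have hsub : {t : ℕ | 1 ≤ t ∧ t ≤ X ∧ ¬ AllShown L ((t : ℝ) ^ η) (expansion (t * β))} ⊆
        {m : ℕ | m < 2 * X ∧ ¬ AllShown L (((2 * X : ℕ) : ℝ) ^ δ) (expansion (m * β))} := by
      rintro t ⟨g1, g2, g3⟩
      refine ⟨by omega, fun g4 => g3 (allShown_mono ?_ g4)⟩
      have ht1 : (1 : ℝ) ≤ t := by exact_mod_cast g1
      have ht2 : (t : ℝ) ≤ ((2 * X : ℕ) : ℝ) := by exact_mod_cast (by omega : t ≤ 2 * X)
      calc (t : ℝ) ^ η ≤ (((2 * X : ℕ) : ℝ)) ^ η := Real.rpow_le_rpow (by linarith) ht2 hη0.le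
        _ ≤ _ := Real.rpow_le_rpow_of_exponent_le hM1 hηδ
    have h5 : (({t : ℕ | 1 ≤ t ∧ t ≤ X ∧ ¬ AllShown L ((t : ℝ) ^ η) (expansion (t * β))}.ncard : ℕ) : ℝ) ≤
        (({m : ℕ | m < 2 * X ∧ ¬ AllShown L (((2 * X : ℕ) : ℝ) ^ δ) (expansion (m * β))}.ncard : ℕ) : ℝ) := by
      exact_mod_cast Set.ncard_le_ncard hsub hfin
    refine h5.trans (h4.trans ?_)
    calc C * (((2 * X : ℕ) : ℝ)) ^ (1 - δ) ≤ C * (((2 * X : ℕ) : ℝ)) ^ (1 - η) :=
          mul_le_mul_of_nonneg_left (Real.rpow_le_rpow_of_exponent_le hM1 (by linarith)) hC.le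
      _ = C * 2 ^ (1 - η) * (X : ℝ) ^ (1 - η) := by
          push_cast
          rw [Real.mul_rpow (by norm_num) (by linarith)]
          ring

end Pool.Agent.Results.MP_cc0c1a_nt.CommonFactors
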