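import Pool.Agent.U349.OB.AutoSix

/-!
# One set of digits decides the uniform distribution of the orbits

Uniformly distributed orbits of the base-6 automaton `F` of the multiplication by `3/2`.
-/

set_option autoImplicit false

namespace Pool.Agent.Results.MP_cc0c1a_nt.OneDigitSet

open Pool.Agent.H429R2.Auto Pool.Agent.U349.OB.Six

/-- (A) For every position `j` the following are equivalent: some finite configuration has a uniformly
distributed orbit; all nonzero finite configurations have one; for every finite `x ≠ 0` the digit of
`F^n(x)` at `j` is `2` or `3` for one third of all `n`; for every finite `x ≠ 0` the two-digit number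
which `F^n(x)` shows at `j, j + 1` is one of `9, …, 26` for one half of all `n`. If they hold, the
orbits of all nonzero finite configurations are dense.

(B) For every real `β > 0` the following are equivalent: the expansion of `β` has a uniformly
distributed orbit; so have the expansions of all `r β`, `r > 0` rational; at every position the
expansions of `m β`, `m ≥ 1`, show `2` or `3` for one third of all times; at all positions `j, j + 1`
they show one of the numbers `9, …, 26` for one half of all times. -/
theorem result :
    (∀ j : ℤ, List.TFAE [∃ x : Conf, IsFin x ∧ Uniform x,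
      ∀ x : Conf, IsFin x → x ≠ 0 → Uniform x,
      ∀ x : Conf, IsFin x → x ≠ 0 → Third x j,
      ∀ x : Conf, IsFin x → x ≠ 0 → Half x j]) ∧
    ((∃ x : Conf, IsFin x ∧ Uniform x) → ∀ x : Conf, IsFin x → x ≠ 0 → Dense (orbit x)) ∧
    (∀ β : ℝ, 0 < β → List.TFAE [Uniform (conf β),
      ∀ r : ℚ, 0 < r → Uniform (conf (r * β)),
      ∀ m : ℕ, 1 ≤ m → ∀ j : ℤ, Third (conf (m * β)) j,
      ∀ m : ℕ, 1 ≤ m → ∀ j : ℤ, Half (conf (m * β)) j]) := by
  refine ⟨fin_tfae, fun h x hx hx0 => ?_, real_tfae⟩
  have h2 : ∀ x : Conf, IsFin x → x ≠ 0 → Uniform x := ((fin_tfae 0).out 0 1).1 h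
  obtain ⟨g, hg, rfl⟩ := fin_of hx hx0
  exact dense_of_uniform hg.pos.le (h2 _ hx hx0)

end Pool.Agent.Results.MP_cc0c1a_nt.OneDigitSet
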