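import Mathlib
import Pool.Agent.U364.PD.Col

/-!
# No pushdown machine predicts a column of the multiplication-by-3/2 automaton

Every column of the space-time diagram of every configuration which is not zero and has only finitely many nonzero
cells on the left (in particular of every nonzero finite configuration) is read by a deterministic pushdown machine which
predicts the next cell. The machine may do any number of silent moves between two cells. It makes at least `c log N`
errors on the first `N` cells, with a constant `c` which depends only on the machine, neither on the configuration nor on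
the position of the column.

The starting file `PredictionAndCompression` has a stronger bound (`M ^ (1 - κ)` errors), but only for most of the
positions in `[-M, M]`; `ColumnComplexity` says that each column has a superlinear number of words, which does not exclude
pushdown machines. Proof: on a stretch without errors the machine is an autonomous pushdown system, so that the column is
periodic after a number of cells which is at most linear in the position of the stretch (`Pool.Agent.U364.PD.stretchP`).
The integers `U n` of the digits up to the column satisfy `2 U (n + 1) = 3 U n + e n` where `e n` is determined by the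
cells `n` and `n + 1` of the column. So `U (n + p) - U n` is a positive integer divisible by `2 ^ k` if the column has the
period `p` on `k` cells after `n`.
-/

set_option autoImplicit false

namespace Pool.Agent.Results.MP_cc0c1a_nt.PushdownColumns

open Pool.Agent.U364.PD Pool.Agent.U364.PD.Col

/-- the column `j` of the space-time diagram of `x`: the `n`-th cell is `F^(n-1) x j`, `n ≥ 1` -/
def column (x : ℤ → Fin 6) (j : ℤ) (n : ℕ) : ℤ := ((F^[n - 1] x j : ℕ) : ℤ)

theorem general {Q Γ : Type} [Finite Q] [Finite Γ] (M : Machine Q Γ) :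
    ∃ K : ℝ, 1 ≤ K ∧ ∀ x : ℤ → Fin 6, BddBelow {i | x i ≠ 0} → (∃ i, x i ≠ 0) → ∀ j : ℤ,
      ∃ A : ℝ, 1 ≤ A ∧ ∀ (q₀ : Q) (s₀ : List Γ) (N : ℕ),
      (N : ℝ) ≤ K ^ (errors M (column x j) q₀ s₀ N + 1) * (s₀.length + A) := by
  classical
  obtain ⟨C, P, hCP⟩ := stretchP M 6
  refine ⟨2 * C + 2 + 2, by have : (0 : ℝ) ≤ C := Nat.cast_nonneg C; linarith, ?_⟩
  intro x hx1 hx2 j
  obtain ⟨U, hU, j0, hj0⟩ := exists_IP x hx1 hx2
  obtain ⟨n0, hn0⟩ := exists_large hU hj0 j
  obtain ⟨A, hA⟩ : ∃ A : ℕ, A = 2 * n0 + U j + 3 := ⟨_, rfl⟩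
  refine ⟨A + 1, by have : (0 : ℝ) ≤ A := Nat.cast_nonneg A; linarith, fun q₀ s₀ N => ?_⟩
  have hd : ∀ n, 0 ≤ column x j n ∧ column x j n < (6 : ℕ) := fun n =>
    ⟨Int.natCast_nonneg _, by
      have := (F^[n - 1] x j).isLt
      unfold column
      exact_mod_cast this⟩
  have hgap : ∀ u v : ℕ, (∀ i, u ≤ i → i < v → Predicts M (column x j) q₀ s₀ i) →
      (v : ℝ) ≤ (2 * C + 2) * (u + (s₀.length + A : ℝ) + 1) := by
    intro u v hp
    obtain ⟨a, p, hp1, -, hap, hper⟩ := hCP (column x j) hd q₀ s₀ u v hp
    have h1 : v ≤ 2 * (u + a + n0 + p) + U j + 3 := by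
      refine gap_col hU j hn0 hp1 fun n hn1 hn2 => ?_
      obtain ⟨i, rfl⟩ : ∃ i, n = u + i := ⟨n - u, by omega⟩
      have h2 := hper i (by omega) hn2
      unfold column at h2
      rw [Nat.add_sub_cancel, Nat.add_sub_cancel] at h2
      exact Fin.ext (by exact_mod_cast h2)
    have h2 : v ≤ 2 * u + 2 * (C * (u + s₀.length + 1)) + A := by omega
    have h3 : (v : ℝ) ≤ 2 * u + 2 * (C * (u + s₀.length + 1)) + A := by exact_mod_cast h2
    have h4 : (0 : ℝ) ≤ C := Nat.cast_nonneg C
    have h5 : (0 : ℝ) ≤ A := Nat.cast_nonneg A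
    have h6 : (0 : ℝ) ≤ s₀.length := Nat.cast_nonneg _
    nlinarith [mul_nonneg h4 h5]
  have h1 := count_bound (2 * C + 2) (by positivity) (s₀.length + A : ℝ) (by positivity)
    (fun i => Predicts M (column x j) q₀ s₀ i) hgap N
  have h2 : errors M (column x j) q₀ s₀ N =
      ((Finset.range N).filter fun n => ¬ Predicts M (column x j) q₀ s₀ n).card := by
    unfold errors
    congr
  rw [h2, ← add_assoc]
  exact h1

/-- **Pushdown predictors for the columns.** For every deterministic pushdown machine `M` with finitely many states and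
stack symbols (silent moves are allowed) there is `K ≥ 1` such that for every configuration `x ≠ 0` which vanishes far to
the left and every position `j` there is `A` such that, from every initial state and stack `s₀`, if `M` makes `E` errors on
the first `N` cells of the column `x j, F x j, F (F x) j, …`, then `N ≤ K ^ (E + 1) (|s₀| + A)`; so there is `c > 0`, which
depends only on the machine, such that `M` makes at least `c log N` errors for all large `N`. -/
theorem result {Q Γ : Type} [Finite Q] [Finite Γ] (M : Machine Q Γ) :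
    (∃ K : ℝ, 1 ≤ K ∧ ∀ x : ℤ → Fin 6, BddBelow {i | x i ≠ 0} → (∃ i, x i ≠ 0) → ∀ j : ℤ,
      ∃ A : ℝ, 1 ≤ A ∧ ∀ (q₀ : Q) (s₀ : List Γ) (N : ℕ),
      (N : ℝ) ≤ K ^ (errors M (column x j) q₀ s₀ N + 1) * (s₀.length + A)) ∧
    (∃ c : ℝ, 0 < c ∧ ∀ x : ℤ → Fin 6, BddBelow {i | x i ≠ 0} → (∃ i, x i ≠ 0) → ∀ j : ℤ,
      ∀ (q₀ : Q) (s₀ : List Γ), ∃ N₀ : ℕ, ∀ N, N₀ ≤ N →
      c * Real.log N ≤ errors M (column x j) q₀ s₀ N) := by
  refine ⟨general M, ?_⟩
  obtain ⟨K, hK1, hK⟩ := general M
  have hK2 : 1 < K + 1 := by linarith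
  have hlK : 0 < Real.log (K + 1) := Real.log_pos hK2
  refine ⟨1 / (2 * Real.log (K + 1)), by positivity, fun x h1 h2 j q₀ s₀ => ?_⟩
  obtain ⟨A, hA1, hA⟩ := hK x h1 h2 j
  obtain ⟨S, hS⟩ : ∃ S : ℝ, S = (K + 1) * (s₀.length + A) := ⟨_, rfl⟩
  have hs : (0 : ℝ) ≤ s₀.length := Nat.cast_nonneg _
  have hS0 : 0 < S := by rw [hS]; positivity
  refine ⟨⌈S ^ 2⌉₊ + 1, fun N hN => ?_⟩
  have hN1 : S ^ 2 ≤ N := by
    have h3 : ((⌈S ^ 2⌉₊ + 1 : ℕ) : ℝ) ≤ N := by exact_mod_cast hN
    push_cast at h3
    linarith [Nat.le_ceil (S ^ 2)]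
  have hN0 : (0 : ℝ) < N := lt_of_lt_of_le (by positivity) hN1
  obtain ⟨E, hE⟩ : ∃ E : ℕ, E = errors M (column x j) q₀ s₀ N := ⟨_, rfl⟩
  have h3 := hA q₀ s₀ N
  rw [← hE] at h3 ⊢
  have h4 : (N : ℝ) ≤ (K + 1) ^ E * S := by
    rw [hS, ← mul_assoc, ← pow_succ]
    exact h3.trans (mul_le_mul_of_nonneg_right (pow_le_pow_left₀ (by linarith) (by linarith) _)
      (by linarith))
  have h5 : Real.log N ≤ E * Real.log (K + 1) + Real.log S := by
    rw [← Real.log_pow, ← Real.log_mul (by positivity) hS0.ne']
    exact Real.log_le_log hN0 h4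
  have h6 : 2 * Real.log S ≤ Real.log N := by
    have : Real.log (S ^ 2) = 2 * Real.log S := by rw [Real.log_pow]; norm_num
    rw [← this]
    exact Real.log_le_log (by positivity) hN1
  rw [div_mul_eq_mul_div, one_mul, div_le_iff₀ (by positivity)]
  linarith

end Pool.Agent.Results.MP_cc0c1a_nt.PushdownColumns
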